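import Pool.Agent.L5helper98.CG.Defs

/-!
# Marginals of Gaussian vectors
-/

set_option autoImplicit false

open MeasureTheory ProbabilityTheory Filter Topology Set
open scoped ENNReal

namespace Pool.Agent.L5helper5.CG

open Pool.Agent.L5helper98.CG

/-- the selection of coordinates -/
noncomputable def sel {n k : ℕ} (f : Fin k → Fin n) :
    EuclideanSpace ℝ (Fin n) →L[ℝ] EuclideanSpace ℝ (Fin k) :=
  LinearMap.toContinuousLinearMap
    { toFun := fun x => WithLp.toLp 2 fun i => x (f i)
      map_add' := fun x y => by ext; simp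
      map_smul' := fun c x => by ext; simp }

lemma sel_apply {n k : ℕ} (f : Fin k → Fin n) (x : EuclideanSpace ℝ (Fin n)) (i : Fin k) :
    sel f x i = x (f i) := rfl

lemma map_sel {n k : ℕ} (f : Fin k → Fin n) (C : Matrix (Fin n) (Fin n) ℝ) (hC : C.PosSemidef) :
    (multivariateGaussian 0 C).map (sel f) = multivariateGaussian 0 (C.submatrix f f) := by
  apply IsGaussian.ext
  · simp only [id_eq, integral_id_multivariateGaussian]
    rw [ContinuousLinearMap.integral_id_map, integral_id_multivariateGaussian, map_zero]
    exact IsGaussian.integrable_id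
  rw [← ContinuousLinearMap.toBilinForm_inj]
  refine LinearMap.BilinForm.ext_basis (EuclideanSpace.basisFun (Fin k) ℝ).toBasis fun i j ↦ ?_
  rw [ContinuousLinearMap.toBilinForm_apply, ContinuousLinearMap.toBilinForm_apply,
    covarianceBilin_apply_eq_cov, covariance_map]
  · have h (i : Fin k) : (fun u : EuclideanSpace ℝ (Fin k) ↦
        (inner ℝ ((EuclideanSpace.basisFun (Fin k) ℝ).toBasis i) u : ℝ)) ∘
        (sel f) = fun u ↦ u (f i) := by
      ext u
      simp [PiLp.inner_apply, sel_apply]
    simp_rw [h, covariance_eval_multivariateGaussian hC,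
      covarianceBilin_multivariateGaussian (hC.submatrix _)]
    simp
  any_goals exact Measurable.aestronglyMeasurable (by fun_prop)
  · fun_prop
  · exact IsGaussian.memLp_two_id

theorem MARG_holds : St_MARG := by
  intro n k C hC f hf p hp q
  unfold gm
  rw [← map_sel f C hC, lintegral_map]
  · refine lintegral_congr fun x => ?_
    congr 2
    simp only [sel_apply, Matrix.submatrix_apply]
    rw [← Finset.sum_subset (Finset.subset_univ (Finset.univ.map ⟨f, hf⟩)), Finset.sum_map]
    · rfl
    · intro i _ hi
      rw [hp i, zero_mul]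
      rintro ⟨j, rfl⟩
      exact hi (Finset.mem_map.2 ⟨j, Finset.mem_univ _, rfl⟩)
  · fun_prop
  · fun_prop

end Pool.Agent.L5helper5.CG
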